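import Pool.Agent.Q269.UnitSumI

/-!
MP_75c9b5_nt, Q1: for every integer `t ∉ {0, 1}` there is a number field `K` with
`ℓ(K) = 4t⁴ - 4t + 2`.

The definitions `Vanishing`, `NoProperSubsum`, `od`, `ev`, `ell` are in
`Pool.Agent.Q269.UnitSumC`.  For `t = -1` the field is `ℚ(√15)`; in all other cases write
`4t⁴ - 4t + 2 = f²D + 16` with `D` squarefree; then `f` is odd and `D ≡ 2 (mod 8)`, and the field
is `ℚ(√-D)(ω)` with `ω² - (2 + f√-D)ω + 1 = 0`, of degree 4.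
-/

namespace Pool.Agent.Results.MP_75c9b5_nt.PrescribedLength

open Pool.Agent.Q269.UnitSum

/-- the quartic fields: every `k ≡ 2 (mod 8)`, `k ≥ 42`, is a length -/
theorem quartic (k : ℕ) (h8 : k % 8 = 2) (h42 : 42 ≤ k) :
    ∃ (K : Type) (_ : Field K) (_ : NumberField K), Module.finrank ℚ K = 4 ∧ ell K = (k : ℕ∞) := by
  obtain ⟨a, b, hab, hsq⟩ := Nat.sq_mul_squarefree (k - 16)
  have hn : ((b:ℤ)^2 * (a:ℤ)) = k - 16 := by
    have : ((b^2*a : ℕ) : ℤ) = ((k-16 : ℕ) : ℤ) := by rw [hab]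
    push_cast at this
    rw [this]
    omega
  have hbodd : Odd (b:ℤ) := by
    by_contra hc
    rw [Int.not_odd_iff_even] at hc
    obtain ⟨c, hc⟩ := hc
    have h1 : (b:ℤ)^2 * a = 4*(c^2*a) := by rw [hc]; ring
    omega
  have hb8 : (b:ℤ)^2 % 8 = 1 := by
    obtain ⟨c, hc⟩ := hbodd
    obtain ⟨e, he⟩ := Int.even_mul_succ_self c
    have : (b:ℤ)^2 = 1 + 8*e := by rw [hc]; linarith
    omega
  have ha8 : (a:ℤ) % 8 = 2 := by
    obtain ⟨e, he⟩ : ∃ e, (b:ℤ)^2 = 8*e + 1 := ⟨(b:ℤ)^2/8, by omega⟩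
    have h1 : ((b:ℤ)^2 * a) = 8*(e*a) + a := by rw [he]; ring
    omega
  have hapos : 0 < (a:ℤ) := by
    have : 0 ≤ (a:ℤ) := Int.natCast_nonneg a
    omega
  have hsqZ : Squarefree (a:ℤ) := Int.squarefree_natCast.mpr hsq
  have hf1 : Fact (0 < (a:ℤ)) := ⟨hapos⟩
  have hf2 : Fact (25 ≤ (b:ℤ)^2*(a:ℤ)) := ⟨by rw [hn]; omega⟩
  have hnf : NumberField (Kq (a:ℤ) (b:ℤ)) := numberField_Kq
  refine ⟨Kq (a:ℤ) (b:ℤ), inferInstance, hnf, ?_, ?_⟩
  · have h1 : Module.finrank ℚ (Fq (a:ℤ)) = 2 := by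
      convert! QuadraticAlgebra.finrank_eq_two (-((a:ℤ):ℚ)) 0
    have h2 : Module.finrank (Fq (a:ℤ)) (Kq (a:ℤ) (b:ℤ)) = 2 :=
      QuadraticAlgebra.finrank_eq_two _ _
    have h3 : IsScalarTower ℚ (Fq (a:ℤ)) (Kq (a:ℤ) (b:ℤ)) := by
      apply IsScalarTower.of_algebraMap_eq'
      apply RingHom.ext_rat
    rw [← Module.finrank_mul_finrank ℚ (Fq (a:ℤ)) (Kq (a:ℤ) (b:ℤ)), h1, h2]
  · exact ell_Kq ha8 hsqZ hbodd (by rw [hn]; omega) (by rw [hn]; omega)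

/-- **Q1**: for every integer `t ∉ {0, 1}` there is a number field `K` with
`ℓ(K) = 4t⁴ - 4t + 2`. -/
theorem result : ∀ t : ℤ, t ≠ 0 → t ≠ 1 → ∃ (K : Type) (_ : Field K) (_ : NumberField K),
    ell K = ((4*t^4 - 4*t + 2).toNat : ℕ∞) := by
  intro t ht0 ht1
  by_cases hm : t = -1
  · subst hm
    refine ⟨Kt, inferInstance, numberField_Kt, ?_⟩
    have e : (4*(-1:ℤ)^4 - 4*(-1) + 2).toNat = 10 := by norm_num; rfl
    rw [ell_Kt, e]
  · have h8 : (4*t^4 - 4*t + 2) % 8 = 2 := by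
      have h1 : Even (t^4 - t) := by
        rcases Int.even_or_odd t with he | ho
        · exact Even.sub (he.pow_of_ne_zero (by norm_num)) he
        · exact Odd.sub_odd ho.pow ho
      obtain ⟨c, hc⟩ := h1
      have : 4*t^4 - 4*t + 2 = 8*c + 2 := by linarith
      omega
    have h42 : 42 ≤ 4*t^4 - 4*t + 2 := by
      rcases le_or_gt 2 t with h | h
      · have h3 : 8 ≤ t^3 := by nlinarith [mul_nonneg (by linarith : 0 ≤ t - 2) (by nlinarith : 0 ≤ t^2+2*t+4)]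
        nlinarith
      · have h2 : t ≤ -2 := by omega
        have h3 : t^3 ≤ -8 := by nlinarith [mul_nonneg (by linarith : 0 ≤ -2 - t) (by nlinarith : 0 ≤ t^2-2*t+4)]
        nlinarith
    obtain ⟨K, hK, hKn, _, hl⟩ := quartic (4*t^4 - 4*t + 2).toNat (by omega) (by omega)
    exact ⟨K, hK, hKn, hl⟩

end Pool.Agent.Results.MP_75c9b5_nt.PrescribedLength
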